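import Pool.Agent.TH455.Mad
import Pool.Agent.TH455.C4

set_option autoImplicit false

/-!
Both packing numbers of the class of planar graphs of girth at least four are equal to four.
-/

namespace Pool.Agent.Results.MP_fe1b94_co.GirthFour

open Pool.Agent.TH455
open Pool.Agent.H239R2.Planar (HasStraightLineDrawing)

theorem free_of_girth {V : Type} {G : SimpleGraph V} (h : (4 : ℕ∞) ≤ G.egirth) :
    G.CliqueFree 3 := by
  intro s hs
  obtain ⟨a, w, hw, hl⟩ := (SimpleGraph.is3Clique_iff_exists_cycle_length_three (G := G)).mp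
    ⟨s, hs⟩
  rw [SimpleGraph.le_egirth] at h
  have := h a w hw
  rw [hl] at this
  norm_num at this

/-- For the class of finite graphs of girth at least `4` with a straight-line drawing in the plane,
the maximum of the list packing number and the maximum of the correspondence packing number are
both `4`; the upper bounds also hold for the finite graphs of girth at least `4` without `K₅` and
`K₃,₃` minors. -/
theorem result :
    (IsGreatest {k : ℕ | ∃ (V : Type) (_ : Fintype V) (G : SimpleGraph V),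
      HasStraightLineDrawing G ∧ (4 : ℕ∞) ≤ G.egirth ∧ listPackingNumber G = k} 4 ∧
    IsGreatest {k : ℕ | ∃ (V : Type) (_ : Fintype V) (G : SimpleGraph V),
      HasStraightLineDrawing G ∧ (4 : ℕ∞) ≤ G.egirth ∧ mCorrPackingNumber G = k} 4) ∧
    ∀ (V : Type) [Fintype V] (G : SimpleGraph V), HasStraightLineDrawing G ∨ NoKMinor G →
      (4 : ℕ∞) ≤ G.egirth → ListPackable G 4 ∧ CorrPackable G 4 := by
  have up : ∀ (V : Type) [Fintype V] (G : SimpleGraph V), HasStraightLineDrawing G ∨ NoKMinor G →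
      (4 : ℕ∞) ≤ G.egirth → ListPackable G 4 ∧ CorrPackable G 4 := by
    intro V _ G hG hg
    have hsp := planar_free_sparse (Or.inr hG) (free_of_girth hg)
    exact ⟨listPackable_of_sparse G hsp, mcorr_of_sparse G hsp⟩
  have hg15 : (4 : ℕ∞) ≤ Ex15.G.egirth := by
    have := egirth_of_free Ex15.triangle_free
    exact_mod_cast this
  refine ⟨⟨⟨?_, ?_⟩, ⟨?_, ?_⟩⟩, up⟩
  · refine ⟨Fin 15, inferInstance, Ex15.G, Ex15.drawing, hg15, ?_⟩
    apply sInf_eq_four
    · exact ⟨by norm_num, (up _ _ (Or.inl Ex15.drawing) hg15).1⟩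
    · rintro ⟨h, _⟩; omega
    · rintro ⟨_, h⟩; exact Ex15.no1 h
    · rintro ⟨_, h⟩; exact Ex15.no2 h
    · rintro ⟨_, h⟩; exact Ex15.no3 h
  · rintro k ⟨V, _, G, h1, h2, rfl⟩
    exact listPackingNumber_le (by norm_num) (up V G (Or.inl h1) h2).1
  · refine ⟨Fin 15, inferInstance, Ex15.G, Ex15.drawing, hg15, ?_⟩
    apply sInf_eq_four
    · exact ⟨by norm_num, (up _ _ (Or.inl Ex15.drawing) hg15).2⟩
    · rintro ⟨h, _⟩; omega
    · rintro ⟨_, h⟩; exact Ex15.no1 (listPackable_of_corrPackable h)
    · rintro ⟨_, h⟩; exact Ex15.no2 (listPackable_of_corrPackable h)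
    · rintro ⟨_, h⟩; exact Ex15.no3 (listPackable_of_corrPackable h)
  · rintro k ⟨V, _, G, h1, h2, rfl⟩
    exact Nat.sInf_le ⟨by norm_num, (up V G (Or.inl h1) h2).2⟩

end Pool.Agent.Results.MP_fe1b94_co.GirthFour
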